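import Mathlib

/-!
# MP_7fc841_nt: both questions, `S_r(p) ≡ 0 (mod p^(2r+3))` for all primes `p > 3`, `r ≥ 1`.
-/

namespace Pool.Agent.Results.MP_7fc841_nt.Supercongruence

open Finset

/-- The sum `S_r(p)` of the problem. -/
noncomputable def S (p r : ℕ) : ℚ :=
  ∑ k ∈ Finset.range ((p ^ r - 1) + 1),
    (2 * ((p ^ r - 1 : ℕ) : ℚ) * (k : ℚ) - 1) *
      ((ascPochhammer ℚ k).eval (-1 / ((p ^ r - 1 : ℕ) : ℚ)) / (k.factorial : ℚ)) ^
        (2 * (p ^ r - 1))

/-- `x` has `p`-adic valuation at least `m`. -/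
def V (p : ℕ) (m : ℤ) (x : ℚ) : Prop := padicNorm p x ≤ (p : ℚ) ^ (-m)

section
variable {p : ℕ} [hp : Fact p.Prime]

lemma ppos : (0 : ℚ) < p := by exact_mod_cast hp.out.pos
lemma pone : (1 : ℚ) < p := by exact_mod_cast hp.out.one_lt

lemma V.mono {m n : ℤ} {x : ℚ} (h : V p m x) (hn : n ≤ m) : V p n x :=
  le_trans h (zpow_le_zpow_right₀ pone.le (by linarith))

lemma V.add {m : ℤ} {x y : ℚ} (hx : V p m x) (hy : V p m y) : V p m (x + y) :=
  le_trans padicNorm.nonarchimedean (max_le hx hy)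

omit hp in
lemma V.neg {m : ℤ} {x : ℚ} (hx : V p m x) : V p m (-x) := by
  unfold V; rw [padicNorm.neg]; exact hx

lemma V.sub {m : ℤ} {x y : ℚ} (hx : V p m x) (hy : V p m y) : V p m (x - y) := by
  rw [sub_eq_add_neg]; exact hx.add hy.neg

lemma V.mul {m n : ℤ} {x y : ℚ} (hx : V p m x) (hy : V p n y) : V p (m + n) (x * y) := by
  unfold V at *
  rw [padicNorm.mul, neg_add, zpow_add₀ ppos.ne']
  exact mul_le_mul hx hy (padicNorm.nonneg _) (zpow_nonneg ppos.le _)

/-- multiplication with a target exponent -/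
lemma V.mul' {m n k : ℤ} {x y : ℚ} (hx : V p m x) (hy : V p n y) (hk : k ≤ m + n) :
    V p k (x * y) := (hx.mul hy).mono hk

lemma V_zero (m : ℤ) : V p m 0 := by
  unfold V; rw [padicNorm.zero]; exact zpow_nonneg ppos.le _

lemma V_int (z : ℤ) : V p 0 (z : ℚ) := by
  unfold V; simpa using padicNorm.of_int z

lemma V_nat (z : ℕ) : V p 0 (z : ℚ) := by
  have := V_int (p := p) (z : ℤ); exact_mod_cast this

lemma V_one : V p 0 (1 : ℚ) := by simpa using V_nat (p := p) 1

lemma V_pow (m : ℕ) : V p m ((p : ℚ) ^ m) := by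
  unfold V
  have h := padicNorm.padicNorm_p_of_prime (p := p)
  have h2 : padicNorm p ((p : ℚ) ^ m) = (padicNorm p (p : ℚ)) ^ m := by
    induction m with
    | zero => simp
    | succ k ih => rw [pow_succ, padicNorm.mul, ih, pow_succ]
  rw [h2, h, zpow_neg, zpow_natCast, inv_pow]

lemma V.pow {m : ℤ} {x : ℚ} (hx : V p m x) (k : ℕ) : V p (k * m) (x ^ k) := by
  induction k with
  | zero => simpa using V_one (p := p)
  | succ j ih =>
    rw [pow_succ]
    exact ih.mul' hx (by push_cast; linarith)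

lemma V_sum {ι : Type*} (s : Finset ι) (f : ι → ℚ) {m : ℤ} (h : ∀ i ∈ s, V p m (f i)) :
    V p m (∑ i ∈ s, f i) := by
  classical
  induction s using Finset.induction_on with
  | empty => simpa using V_zero (p := p) m
  | insert a s ha ih =>
    rw [Finset.sum_insert ha]
    exact (h a (Finset.mem_insert_self _ _)).add
      (ih (fun i hi => h i (Finset.mem_insert_of_mem hi)))

/-- the reciprocal of a natural number not divisible by `p ^ s`, `s ≥ 1` -/
lemma V_inv {s : ℕ} {k : ℕ} (hk : ¬ p ^ s ∣ k) : V p (1 - s) (1 / (k : ℚ)) := by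
  have hk0 : (k : ℚ) ≠ 0 := by
    intro h
    have : k = 0 := by exact_mod_cast h
    exact hk (this ▸ dvd_zero _)
  unfold V
  rw [padicNorm.div, padicNorm.one, padicNorm.eq_zpow_of_nonzero hk0]
  rw [one_div, ← zpow_neg]
  apply zpow_le_zpow_right₀ pone.le
  have h1 : ¬ (padicNorm p (k : ℤ) ≤ (p : ℚ) ^ (-(s : ℤ))) := by
    rw [← padicNorm.dvd_iff_norm_le]
    intro h
    apply hk
    exact_mod_cast h
  rw [Int.cast_natCast, padicNorm.eq_zpow_of_nonzero hk0,
    zpow_le_zpow_iff_right₀ pone] at h1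
  have h2 := not_le.1 h1
  linarith

lemma V_inv_unit {k : ℕ} (hk : ¬ p ∣ k) : V p 0 (1 / (k : ℚ)) := by
  have := V_inv (p := p) (s := 1) (k := k) (by simpa using hk)
  simpa using this

lemma norm_eq_one {x : ℚ} (h : V p 1 (x - 1)) : padicNorm p x = 1 := by
  have h1 : padicNorm p (x - 1) < 1 := by
    refine lt_of_le_of_lt h ?_
    rw [zpow_neg, zpow_one]
    exact inv_lt_one_of_one_lt₀ pone
  have h2 : padicNorm p ((x - 1) + 1) = max (padicNorm p (x - 1)) (padicNorm p 1) := by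
    apply padicNorm.add_eq_max_of_ne
    rw [padicNorm.one]; exact h1.ne
  rw [padicNorm.one, max_eq_right h1.le] at h2
  simpa using h2

omit hp in
lemma V_of_norm_one {x : ℚ} (h : padicNorm p x = 1) : V p 0 x := by
  unfold V; rw [h]; simp

/-- products of one-units are one-units, at any level `m ≥ 0` -/
lemma prod_one {ι : Type*} (s : Finset ι) (f : ι → ℚ) {m : ℤ} (hm : 0 ≤ m)
    (h : ∀ i ∈ s, V p m (f i - 1)) : V p m (∏ i ∈ s, f i - 1) := by
  classical
  induction s using Finset.induction_on with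
  | empty => simpa using V_zero (p := p) m
  | insert a s ha ih =>
    rw [Finset.prod_insert ha]
    have h1 := h a (Finset.mem_insert_self _ _)
    have h2 := ih (fun i hi => h i (Finset.mem_insert_of_mem hi))
    have e : f a * ∏ i ∈ s, f i - 1 = (f a - 1) * (∏ i ∈ s, f i - 1) + (f a - 1) +
      (∏ i ∈ s, f i - 1) := by ring
    rw [e]
    exact ((h1.mul' h2 (by linarith)).add h1).add h2

lemma pow_one_unit {x : ℚ} {m : ℤ} (hm : 0 ≤ m) (h : V p m (x - 1)) (k : ℕ) :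
    V p m (x ^ k - 1) := by
  have := prod_one (p := p) (Finset.range k) (fun _ => x) hm (fun i _ => h)
  simpa using this

/-- product of `1 + w_i` with `w_i` of valuation `≥ 2` and sum of valuation `≥ 3` -/
lemma prod_two {ι : Type*} (s : Finset ι) (f : ι → ℚ)
    (h : ∀ i ∈ s, V p 2 (f i)) : V p 3 (∏ i ∈ s, (1 + f i) - 1 - ∑ i ∈ s, f i) := by
  classical
  induction s using Finset.induction_on with
  | empty => simpa using V_zero (p := p) 3
  | insert a s ha ih =>
    rw [Finset.prod_insert ha, Finset.sum_insert ha]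
    have h1 := h a (Finset.mem_insert_self _ _)
    have h2 := ih (fun i hi => h i (Finset.mem_insert_of_mem hi))
    have h3 : V p 2 (∏ i ∈ s, (1 + f i) - 1) := by
      apply prod_one _ _ (by norm_num)
      intro i hi
      simpa using h i (Finset.mem_insert_of_mem hi)
    have e : (1 + f a) * ∏ i ∈ s, (1 + f i) - 1 - (f a + ∑ i ∈ s, f i) =
      f a * (∏ i ∈ s, (1 + f i) - 1) + (∏ i ∈ s, (1 + f i) - 1 - ∑ i ∈ s, f i) := by ring
    rw [e]
    exact (h1.mul' h3 (by norm_num)).add h2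

/-! ### The polynomial approximation of `(1+x)^(-n)` -/

/-- truncated binomial series of `(1+x)^(-n)` -/
def P (n x : ℚ) : ℚ := 1 - n * x + n * (n + 1) / 2 * x ^ 2 - n * (n + 1) * (n + 2) / 6 * x ^ 3
  + n * (n + 1) * (n + 2) * (n + 3) / 24 * x ^ 4

lemma P_spec (h3 : 3 < p) {x : ℚ} (hx : V p 0 x) (n : ℕ) :
    ∃ Q : ℚ, V p 0 Q ∧ (1 + x) ^ n * P n x = 1 + x ^ 5 * Q := by
  have h24 : V p 0 (1 / (24 : ℚ)) := by
    have : ¬ p ∣ 24 := by
      intro h
      have h' : p ∣ 2 ^ 3 * 3 := by simpa using h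
      rcases (hp.out.dvd_mul).1 h' with h | h
      · have := Nat.le_of_dvd (by norm_num) (hp.out.dvd_of_dvd_pow h)
        omega
      · have := Nat.le_of_dvd (by norm_num) h
        omega
    have := V_inv_unit (p := p) this
    exact_mod_cast this
  induction n with
  | zero => exact ⟨0, V_zero 0, by simp [P]⟩
  | succ n ih =>
    obtain ⟨Q, hQ, h⟩ := ih
    refine ⟨Q + (1 + x) ^ n * (((n : ℚ) + 1) * (n + 2) * (n + 3) * (n + 4) * (1 / 24)), ?_, ?_⟩
    · refine hQ.add ?_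
      have h1 : V p 0 ((1 + x) ^ n) := by
        have := (V_one.add hx).pow n
        simpa using this
      have h2 : V p 0 ((((n + 1) * (n + 2) * (n + 3) * (n + 4) : ℕ) : ℚ)) := V_nat _
      have h3 := h1.mul (h2.mul h24)
      simp only [add_zero] at h3
      push_cast at h3
      exact h3
    · have e : (1 + x) * P ((n : ℚ) + 1) x = P n x +
        ((n : ℚ) + 1) * (n + 2) * (n + 3) * (n + 4) / 24 * x ^ 5 := by
        unfold P; ring
      push_cast
      rw [pow_succ, mul_assoc, e, mul_add, h]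
      ring


/-! ### Sums of reciprocals -/

lemma zmod_sum (g : ZMod p → ZMod p) :
    ∑ a : ZMod p, g a = ∑ i ∈ Finset.range p, g (i : ZMod p) := by
  refine Finset.sum_bij' (fun a _ => a.val) (fun i _ => (i : ZMod p)) ?_ ?_ ?_ ?_ ?_
  · intro a _; exact Finset.mem_range.2 (ZMod.val_lt a)
  · intro i _; exact Finset.mem_univ _
  · intro a _; simp
  · intro i hi; exact ZMod.val_cast_of_lt (Finset.mem_range.1 hi)
  · intro a _; simp

lemma zmod_inv_sq (h3 : 3 < p) :
    ∑ i ∈ Finset.range (p - 1), ((((i + 1 : ℕ) : ZMod p))⁻¹) ^ 2 = 0 := by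
  have h1 : ∑ a : ZMod p, (a⁻¹) ^ 2 = 0 := by
    have h2 : ∑ a : ZMod p, a ^ 2 = 0 := by
      apply FiniteField.sum_pow_lt_card_sub_one
      rw [ZMod.card]; omega
    rw [← h2]
    refine Finset.sum_bij' (fun a _ => a⁻¹) (fun a _ => a⁻¹) ?_ ?_ ?_ ?_ ?_ <;> simp
  rw [zmod_sum] at h1
  have h5 := Finset.sum_range_succ' (fun i : ℕ => (((i : ZMod p))⁻¹) ^ 2) (p - 1)
  rw [Nat.sub_add_cancel hp.out.one_le, h1] at h5
  simpa using h5.symm

omit hp in
lemma not_dvd_of_lt {m : ℕ} (h0 : 0 < m) (h : m < p) : ¬ p ∣ m := fun hd =>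
  absurd (Nat.le_of_dvd h0 hd) (by omega)

lemma sum_inv_sq (h3 : 3 < p) :
    V p 1 (∑ i ∈ Finset.range (p - 1), (1 / ((i : ℚ) + 1)) ^ 2) := by
  set F : ℕ := (p - 1).factorial with hF
  have hFp : ¬ p ∣ F := by
    intro h
    have := (hp.out.dvd_factorial).1 h
    have := hp.out.pos
    omega
  have hdiv : ∀ i ∈ Finset.range (p - 1), (i + 1) ∣ F := by
    intro i hi
    apply Nat.dvd_factorial (Nat.succ_pos _)
    have := Finset.mem_range.1 hi
    omega
  have hF0 : (F : ℚ) ≠ 0 := by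
    exact_mod_cast (Nat.factorial_pos _).ne'
  have hZ : (p : ℤ) ∣ ((∑ i ∈ Finset.range (p - 1), (F / (i + 1)) ^ 2 : ℕ) : ℤ) := by
    rw [← ZMod.intCast_zmod_eq_zero_iff_dvd]
    rw [Int.cast_natCast]
    push_cast
    have : ∀ i ∈ Finset.range (p - 1), (((F / (i + 1) : ℕ) : ZMod p)) ^ 2 =
        (F : ZMod p) ^ 2 * ((((i + 1 : ℕ) : ZMod p))⁻¹) ^ 2 := by
      intro i hi
      have hne : (((i + 1 : ℕ) : ZMod p)) ≠ 0 := by
        rw [Ne, ZMod.natCast_eq_zero_iff]
        apply not_dvd_of_lt (Nat.succ_pos _)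
        have := Finset.mem_range.1 hi
        omega
      have h5 : (((F / (i + 1) : ℕ) : ZMod p)) * ((i + 1 : ℕ) : ZMod p) = (F : ZMod p) := by
        rw [← Nat.cast_mul, Nat.div_mul_cancel (hdiv i hi)]
      rw [← h5]
      field_simp
    rw [Finset.sum_congr rfl this, ← Finset.mul_sum, zmod_inv_sq h3, mul_zero]
  have e : ∑ i ∈ Finset.range (p - 1), (1 / ((i : ℚ) + 1)) ^ 2 =
      (((∑ i ∈ Finset.range (p - 1), (F / (i + 1)) ^ 2 : ℕ) : ℤ) : ℚ) * (1 / (F : ℚ)) ^ 2 := by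
    rw [Int.cast_natCast]
    push_cast
    rw [Finset.sum_mul]
    apply Finset.sum_congr rfl
    intro i hi
    rw [Nat.cast_div (hdiv i hi) (by positivity)]
    have : ((i : ℚ) + 1) ≠ 0 := by positivity
    push_cast
    field_simp
  rw [e]
  have h1 : V p 1 ((((∑ i ∈ Finset.range (p - 1), (F / (i + 1)) ^ 2 : ℕ) : ℤ) : ℚ)) := by
    have := (padicNorm.dvd_iff_norm_le (p := p) (n := 1)
      (z := ((∑ i ∈ Finset.range (p - 1), (F / (i + 1)) ^ 2 : ℕ) : ℤ))).1 (by simpa using hZ)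
    unfold V
    simpa using this
  have h2 := (V_inv_unit hFp).pow 2
  exact h1.mul' h2 (by norm_num)

lemma sum_inv_mul (h3 : 3 < p) :
    V p 1 (∑ i ∈ Finset.range (p - 1), (1 / (((i : ℚ) + 1) * ((p : ℚ) - ((i : ℚ) + 1))))) := by
  have e : ∀ i ∈ Finset.range (p - 1), (1 / (((i : ℚ) + 1) * ((p : ℚ) - ((i : ℚ) + 1)))) =
      -(1 / ((i : ℚ) + 1)) ^ 2 + (p : ℚ) * (1 / ((i : ℚ) + 1)) ^ 2 *
        (1 / ((p : ℚ) - ((i : ℚ) + 1))) := by
    intro i hi
    have hi' := Finset.mem_range.1 hi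
    have h1 : ((i : ℚ) + 1) ≠ 0 := by positivity
    have h2 : ((p : ℚ) - ((i : ℚ) + 1)) ≠ 0 := by
      have : ((i : ℚ) + 1) < p := by
        have : i + 1 < p := by omega
        exact_mod_cast this
      linarith
    field_simp
    ring
  rw [Finset.sum_congr rfl e, Finset.sum_add_distrib, Finset.sum_neg_distrib]
  refine (sum_inv_sq h3).neg.add ?_
  apply V_sum
  intro i hi
  have hi' := Finset.mem_range.1 hi
  have h1 : V p 0 (1 / ((i : ℚ) + 1)) := by
    have := V_inv_unit (p := p) (k := i + 1) (not_dvd_of_lt (by omega) (by omega))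
    push_cast at this; exact this
  have h2 : V p 0 (1 / ((p : ℚ) - ((i : ℚ) + 1))) := by
    have := V_inv_unit (p := p) (k := p - (i + 1)) (not_dvd_of_lt (by omega) (by omega))
    rw [Nat.cast_sub (by omega)] at this
    push_cast at this; exact this
  have h4 : V p 1 (p : ℚ) := by simpa using V_pow (p := p) 1
  exact (h4.mul' (k := 1) (h1.pow 2) (by norm_num)).mul' (k := 1) h2 (by norm_num)

lemma sum_inv (h3 : 3 < p) :
    V p 1 (∑ i ∈ Finset.range (p - 1), (1 / ((i : ℚ) + 1))) := by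
  have hr : ∑ i ∈ Finset.range (p - 1), (1 / ((i : ℚ) + 1)) =
      ∑ i ∈ Finset.range (p - 1), (1 / ((p : ℚ) - ((i : ℚ) + 1))) := by
    rw [← Finset.sum_range_reflect (fun i : ℕ => (1 / ((i : ℚ) + 1)))]
    apply Finset.sum_congr rfl
    intro i hi
    have hi' := Finset.mem_range.1 hi
    congr 1
    have : p - 1 - 1 - i = p - (i + 2) := by omega
    rw [this, Nat.cast_sub (by omega)]
    push_cast; ring
  have e : ∑ i ∈ Finset.range (p - 1), (1 / ((i : ℚ) + 1)) =
      (1 / (2 : ℚ)) * ((p : ℚ) * ∑ i ∈ Finset.range (p - 1),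
        (1 / (((i : ℚ) + 1) * ((p : ℚ) - ((i : ℚ) + 1))))) := by
    have : ∑ i ∈ Finset.range (p - 1), (1 / ((i : ℚ) + 1)) =
        (1 / (2 : ℚ)) * (∑ i ∈ Finset.range (p - 1), (1 / ((i : ℚ) + 1)) +
          ∑ i ∈ Finset.range (p - 1), (1 / ((p : ℚ) - ((i : ℚ) + 1)))) := by
      rw [← hr]; ring
    rw [this, ← Finset.sum_add_distrib, Finset.mul_sum (a := (p : ℚ))]
    congr 1
    apply Finset.sum_congr rfl
    intro i hi
    have hi' := Finset.mem_range.1 hi
    have h1 : ((i : ℚ) + 1) ≠ 0 := by positivity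
    have h2 : ((p : ℚ) - ((i : ℚ) + 1)) ≠ 0 := by
      have : ((i : ℚ) + 1) < p := by
        have : i + 1 < p := by omega
        exact_mod_cast this
      linarith
    field_simp
    ring
  rw [e]
  have h2 : V p 0 (1 / (2 : ℚ)) := by
    have := V_inv_unit (p := p) (k := 2) (not_dvd_of_lt (by omega) (by omega))
    exact_mod_cast this
  have h4 : V p 1 (p : ℚ) := by simpa using V_pow (p := p) 1
  exact h2.mul' (h4.mul' (k := 1) (sum_inv_mul h3) (by norm_num)) (by norm_num)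


/-! ### The main computation -/

/-- the products in the sum -/
noncomputable def E (t : ℚ) (N k : ℕ) : ℚ := (∏ i ∈ Finset.range k, (1 + t / ((i : ℚ) + 1))) ^ (2 * N)

lemma E_zero (t : ℚ) (N : ℕ) : E t N 0 = 1 := by simp [E]

lemma E_succ (t : ℚ) (N k : ℕ) : E t N (k + 1) = E t N k * (1 + t / ((k : ℚ) + 1)) ^ (2 * N) := by
  unfold E; rw [Finset.prod_range_succ, mul_pow]

omit hp in
lemma poch (N k : ℕ) (hN : N ≠ 0) : (ascPochhammer ℚ k).eval (-1 / (N : ℚ)) / (k.factorial : ℚ) =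
    ∏ i ∈ Finset.range k, (1 + (-((N : ℚ) + 1) / N) / ((i : ℚ) + 1)) := by
  have hN' : (N : ℚ) ≠ 0 := by exact_mod_cast hN
  induction k with
  | zero => simp
  | succ k ih =>
    rw [Finset.prod_range_succ, ← ih, ascPochhammer_succ_eval, Nat.factorial_succ]
    have h1 : ((k : ℚ) + 1) ≠ 0 := by positivity
    have h2 : (k.factorial : ℚ) ≠ 0 := by positivity
    push_cast
    field_simp
    ring

/-- The key algebraic identity. -/
lemma key (q t : ℚ) (N : ℕ) (hN : N ≠ 0) (hq : q = N + 1) (ht : t = -q / N) (Q : ℕ → ℚ)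
    (hQ : ∀ j ∈ Finset.range N, (1 + t / ((j : ℚ) + 1)) ^ (2 * N) *
      P ((2 * N : ℕ) : ℚ) (t / ((j : ℚ) + 1)) = 1 + (t / ((j : ℚ) + 1)) ^ 5 * Q j)
    (n c3 c4 ε W s1 s2 : ℚ) (hn : n = 2 * N)
    (hc3 : c3 = n * (n + 1) * (n + 2) / 6)
    (hc4 : c4 = n * (n + 1) * (n + 2) * (n + 3) / 24)
    (hε : ε = (2 * q - 1) * q ^ 2 / N)
    (hW : W = ∑ j ∈ Finset.range N, E t N (j + 1) * (1 / ((j : ℚ) + 1)))
    (hs1 : s1 = ∑ j ∈ Finset.range N, (-(c3 * t * (t / ((j : ℚ) + 1)) ^ 2 * E t N (j + 1)) +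
      c4 * t * (t / ((j : ℚ) + 1)) ^ 3 * E t N (j + 1) -
      t * (t / ((j : ℚ) + 1)) ^ 4 * (E t N j * Q j)))
    (hs2 : s2 = ∑ j ∈ Finset.range N, (-(c3 * t ^ 2 * (t / ((j : ℚ) + 1)) * E t N (j + 1)) +
      c4 * t ^ 2 * (t / ((j : ℚ) + 1)) ^ 2 * E t N (j + 1) -
      t ^ 2 * (t / ((j : ℚ) + 1)) ^ 3 * (E t N j * Q j))) :
    ∑ k ∈ Finset.range (N + 1), (2 * (N : ℚ) * (k : ℚ) - 1) * E t N k =
      q ^ 2 * (1 / N) * ((E t N N - 1) + ε * W + s1) - s2 := by
  have hN' : (N : ℚ) ≠ 0 := by exact_mod_cast hN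
  have hnt : n * t = -2 * q := by rw [hn, ht]; field_simp
  have hnt2 : n * (n + 1) / 2 * t ^ 2 = ε := by
    rw [hε, hn, ht, hq]; field_simp; ring
  have hE : ∀ j ∈ Finset.range N, E t N j = E t N (j + 1) * P n (t / ((j : ℚ) + 1)) -
      E t N j * (t / ((j : ℚ) + 1)) ^ 5 * Q j := by
    intro j hj
    have h1 := hQ j hj
    have h2 : ((2 * N : ℕ) : ℚ) = n := by rw [hn]; push_cast; ring
    rw [h2] at h1
    rw [E_succ, mul_assoc, h1]
    ring
  have tel1 := Finset.sum_range_sub (fun j : ℕ => ((j : ℚ) + 1) * E t N j) N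
  have tel2 := Finset.sum_range_sub (fun j : ℕ => ((j : ℚ) + 1) ^ 2 * E t N j) N
  have I1 : ∑ j ∈ Finset.range N, ((((j + 1 : ℕ) : ℚ) + 1) * E t N (j + 1) -
      ((j : ℚ) + 1) * E t N j) = (1 - 2 * q) * ∑ j ∈ Finset.range N, E t N (j + 1) - ε * W - s1 := by
    rw [hW, hs1, Finset.mul_sum, Finset.mul_sum, ← Finset.sum_sub_distrib, ← Finset.sum_sub_distrib]
    apply Finset.sum_congr rfl
    intro j hj
    have h1 : ((j : ℚ) + 1) ≠ 0 := by positivity
    obtain ⟨x, hx⟩ : ∃ x, x = t / ((j : ℚ) + 1) := ⟨_, rfl⟩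
    have hxt : ((j : ℚ) + 1) * x = t := by rw [hx]; field_simp
    have h2 := hE j hj
    rw [← hx] at h2 ⊢
    have e1 : ((j : ℚ) + 1) * E t N j = E t N (j + 1) * (((j : ℚ) + 1) * P n x) -
        (((j : ℚ) + 1) * x) * x ^ 4 * (E t N j * Q j) := by
      conv_lhs => rw [h2]
      ring
    have e2 : ((j : ℚ) + 1) * P n x = ((j : ℚ) + 1) - n * (((j : ℚ) + 1) * x) +
        n * (n + 1) / 2 * x * (((j : ℚ) + 1) * x) - c3 * (((j : ℚ) + 1) * x) * x ^ 2 +
        c4 * (((j : ℚ) + 1) * x) * x ^ 3 := by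
      rw [hc3, hc4]; unfold P; ring
    have e3 : n * (n + 1) / 2 * x * t = ε * (1 / ((j : ℚ) + 1)) := by
      rw [← hnt2, hx]; field_simp
    rw [e1, e2, hxt, hnt, e3]
    push_cast
    ring
  have I2 : ∑ j ∈ Finset.range N, ((((j + 1 : ℕ) : ℚ) + 1) ^ 2 * E t N (j + 1) -
      ((j : ℚ) + 1) ^ 2 * E t N j) = (2 - 2 * q) * ∑ j ∈ Finset.range N, ((j : ℚ) + 1) * E t N (j + 1)
        + (1 - ε) * ∑ j ∈ Finset.range N, E t N (j + 1) - s2 := by
    rw [hs2, Finset.mul_sum, Finset.mul_sum, ← Finset.sum_add_distrib, ← Finset.sum_sub_distrib]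
    apply Finset.sum_congr rfl
    intro j hj
    have h1 : ((j : ℚ) + 1) ≠ 0 := by positivity
    obtain ⟨x, hx⟩ : ∃ x, x = t / ((j : ℚ) + 1) := ⟨_, rfl⟩
    have hxt : ((j : ℚ) + 1) * x = t := by rw [hx]; field_simp
    have h2 := hE j hj
    rw [← hx] at h2 ⊢
    have e1 : ((j : ℚ) + 1) ^ 2 * E t N j = E t N (j + 1) * (((j : ℚ) + 1) ^ 2 * P n x) -
        (((j : ℚ) + 1) * x) ^ 2 * x ^ 3 * (E t N j * Q j) := by
      conv_lhs => rw [h2]
      ring
    have e2 : ((j : ℚ) + 1) ^ 2 * P n x = ((j : ℚ) + 1) ^ 2 - ((j : ℚ) + 1) * (n * (((j : ℚ) + 1) * x)) +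
        n * (n + 1) / 2 * (((j : ℚ) + 1) * x) ^ 2 - c3 * (((j : ℚ) + 1) * x) ^ 2 * x +
        c4 * (((j : ℚ) + 1) * x) ^ 2 * x ^ 2 := by
      rw [hc3, hc4]; unfold P; ring
    rw [e1, e2, hxt, hnt, hnt2]
    push_cast
    ring
  rw [I1] at tel1
  rw [I2] at tel2
  rw [Finset.sum_range_succ', E_zero]
  simp only [E_zero] at tel1 tel2
  have e5 : ∑ k ∈ Finset.range N, (2 * (N : ℚ) * ((k + 1 : ℕ) : ℚ) - 1) * E t N (k + 1) =
      (2 * q - 2) * ∑ j ∈ Finset.range N, ((j : ℚ) + 1) * E t N (j + 1) -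
        ∑ j ∈ Finset.range N, E t N (j + 1) := by
    rw [Finset.mul_sum, ← Finset.sum_sub_distrib]
    apply Finset.sum_congr rfl
    intro j hj
    rw [hq]; push_cast; ring
  rw [e5]
  have hNq : (N : ℚ) = q - 1 := by rw [hq]; ring
  have hq1 : q - 1 ≠ 0 := by rw [← hNq]; exact hN'
  rw [hNq] at tel1 tel2 hε ⊢
  push_cast at tel1 tel2 ⊢
  have hεq : ε * (q - 1) = (2 * q - 1) * q ^ 2 := by rw [hε]; field_simp
  generalize hB : ∑ j ∈ Finset.range N, E t N (j + 1) = B at tel1 tel2 ⊢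
  generalize hK : ∑ j ∈ Finset.range N, ((j : ℚ) + 1) * E t N (j + 1) = K at tel1 tel2 ⊢
  have e6 : ε * B = -(q ^ 2 / (q - 1)) * ((1 - 2 * q) * B) := by
    have : ε = (2 * q - 1) * q ^ 2 / (q - 1) := hε
    rw [this]; field_simp; ring
  have e7 : (1 - 2 * q) * B = q * E t N N - 1 + ε * W + s1 := by linear_combination tel1
  have e8 : (2 * q - 2) * K - B = -(q ^ 2 * E t N N - 1 + s2 + ε * B) := by
    linear_combination -tel2
  have e9 : (2 * q - 2) * K - B + (2 * (q - 1) * 0 - 1) * 1 =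
      -(q ^ 2 * E t N N + s2 + ε * B) := by linear_combination e8
  rw [e9, e6, e7]
  field_simp
  ring


section setup
variable (h3 : 3 < p) (r : ℕ) (hr : 1 ≤ r) (N : ℕ) (hN : p ^ r = N + 1)
include h3 hr hN

omit h3 in
lemma N_unit : ¬ p ∣ N := by
  intro h
  have h1 : p ∣ N + 1 := hN ▸ dvd_pow_self p (by omega)
  have h2 : p ∣ 1 := (Nat.dvd_add_right h).1 h1
  have := Nat.le_of_dvd one_pos h2
  have := hp.out.two_le
  omega

omit h3 hr in
lemma inv_bound (j : ℕ) (hj : j < N) : V p (1 - r) (1 / ((j : ℚ) + 1)) := by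
  have := V_inv (p := p) (s := r) (k := j + 1) (by
    intro h
    have := Nat.le_of_dvd (Nat.succ_pos _) h
    omega)
  push_cast at this
  exact this

omit h3 hr hN in
lemma t_bound {t : ℚ} (hr : 1 ≤ r) (hN : p ^ r = N + 1) (ht : t = -((p : ℚ) ^ r) / N) : V p r t := by
  have h1 := V_pow (p := p) r
  have h2 := V_inv_unit (N_unit r hr N hN)
  have e : t = -((p : ℚ) ^ r * (1 / N)) := by rw [ht]; ring
  rw [e]
  exact (h1.mul' h2 (by linarith)).neg

omit h3 in
lemma x_bound {t : ℚ} (ht : t = -((p : ℚ) ^ r) / N) (j : ℕ) (hj : j < N) :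
    V p 1 (t / ((j : ℚ) + 1)) := by
  rw [div_eq_mul_one_div]
  exact (t_bound r N hr hN ht).mul' (inv_bound r N hN j hj) (by linarith)

omit h3 in
lemma E_one {t : ℚ} (ht : t = -((p : ℚ) ^ r) / N) (k : ℕ) (hk : k ≤ N) :
    V p 1 (E t N k - 1) := by
  unfold E
  apply pow_one_unit (by norm_num)
  apply prod_one _ _ (by norm_num)
  intro i hi
  have := Finset.mem_range.1 hi
  simpa using x_bound r hr N hN ht i (by omega)

omit h3 in
lemma E_int {t : ℚ} (ht : t = -((p : ℚ) ^ r) / N) (k : ℕ) (hk : k ≤ N) :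
    V p 0 (E t N k) := V_of_norm_one (norm_eq_one (E_one r hr N hN ht k hk))

omit hp h3 hr in
lemma E_sq (t : ℚ) : (∏ i ∈ Finset.range N, (1 + t / ((i : ℚ) + 1))) ^ 2 =
    ∏ i ∈ Finset.range N, (1 + t * ((p : ℚ) ^ r + t) *
      ((1 / ((i : ℚ) + 1)) * (1 / ((p : ℚ) ^ r - ((i : ℚ) + 1))))) := by
  have hq : (p : ℚ) ^ r = N + 1 := by exact_mod_cast hN
  have h1 : ∏ i ∈ Finset.range N, (1 + t / ((i : ℚ) + 1)) =
      ∏ i ∈ Finset.range N, (1 + t / ((p : ℚ) ^ r - ((i : ℚ) + 1))) := by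
    rw [← Finset.prod_range_reflect (fun i : ℕ => (1 + t / ((i : ℚ) + 1)))]
    apply Finset.prod_congr rfl
    intro i hi
    have hi' := Finset.mem_range.1 hi
    congr 2
    have : N - 1 - i = N - (i + 1) := by omega
    rw [this, Nat.cast_sub (by omega), hq]
    push_cast; ring
  rw [sq]
  nth_rw 2 [h1]
  rw [← Finset.prod_mul_distrib]
  apply Finset.prod_congr rfl
  intro i hi
  have hi' := Finset.mem_range.1 hi
  have h2 : ((i : ℚ) + 1) ≠ 0 := by positivity
  have h4 : ((p : ℚ) ^ r - ((i : ℚ) + 1)) ≠ 0 := by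
    have : ((i : ℚ) + 1) < (p : ℚ) ^ r := by
      rw [hq]
      have : (i : ℚ) < N := by exact_mod_cast hi'
      linarith
    linarith
  field_simp
  ring

lemma sum_w {w : ℚ} (hw : V p (2 * r) w) :
    V p 3 (∑ i ∈ Finset.range N, w * ((1 / ((i : ℚ) + 1)) * (1 / ((p : ℚ) ^ r - ((i : ℚ) + 1))))) := by
  have hq : (p : ℚ) ^ r = N + 1 := by exact_mod_cast hN
  rw [← Finset.sum_filter_add_sum_filter_not (Finset.range N) (fun i => p ^ (r - 1) ∣ i + 1)]
  apply V.add
  · -- multiples of p^(r-1)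
    have hpr : p ^ r = p ^ (r - 1) * p := by
      rw [← pow_succ]; congr 1; omega
    have hpos : 0 < p ^ (r - 1) := pow_pos hp.out.pos _
    have e : ∑ i ∈ Finset.range N with p ^ (r - 1) ∣ i + 1,
        w * ((1 / ((i : ℚ) + 1)) * (1 / ((p : ℚ) ^ r - ((i : ℚ) + 1)))) =
        ∑ m ∈ Finset.range (p - 1), w * (1 / ((p ^ (r - 1) : ℕ) : ℚ)) ^ 2 *
          (1 / (((m : ℚ) + 1) * ((p : ℚ) - ((m : ℚ) + 1)))) := by
      refine Finset.sum_bij' (fun i _ => (i + 1) / p ^ (r - 1) - 1)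
        (fun m _ => p ^ (r - 1) * (m + 1) - 1) ?_ ?_ ?_ ?_ ?_
      · intro i hi
        rw [Finset.mem_filter, Finset.mem_range] at hi
        obtain ⟨hi1, c, hc⟩ := hi
        rw [Finset.mem_range, hc, Nat.mul_div_cancel_left _ hpos]
        have : p ^ (r - 1) * c < p ^ (r - 1) * p := by rw [← hpr, ← hc, hN]; omega
        have hc1 : c < p := Nat.lt_of_mul_lt_mul_left this
        have hc0 : c ≠ 0 := by rintro rfl; simp at hc
        omega
      · intro m hm
        rw [Finset.mem_range] at hm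
        rw [Finset.mem_filter, Finset.mem_range]
        have h1 : 1 ≤ p ^ (r - 1) * (m + 1) := Nat.mul_pos hpos (Nat.succ_pos _)
        have h2 : p ^ (r - 1) * (m + 1) < p ^ (r - 1) * p :=
          Nat.mul_lt_mul_of_pos_left (by omega) hpos
        rw [← hpr, hN] at h2
        refine ⟨by omega, ?_⟩
        rw [Nat.sub_add_cancel h1]
        exact dvd_mul_right _ _
      · intro i hi
        rw [Finset.mem_filter, Finset.mem_range] at hi
        obtain ⟨hi1, c, hc⟩ := hi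
        have hc0 : c ≠ 0 := by rintro rfl; simp at hc
        rw [hc, Nat.mul_div_cancel_left _ hpos, Nat.sub_add_cancel (by omega), ← hc]
        omega
      · intro m hm
        have h1 : 1 ≤ p ^ (r - 1) * (m + 1) := Nat.mul_pos hpos (Nat.succ_pos _)
        rw [Nat.sub_add_cancel h1, Nat.mul_div_cancel_left _ hpos]
        omega
      · intro i hi
        rw [Finset.mem_filter, Finset.mem_range] at hi
        obtain ⟨hi1, c, hc⟩ := hi
        have hc0 : c ≠ 0 := by rintro rfl; simp at hc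
        have : p ^ (r - 1) * c < p ^ (r - 1) * p := by rw [← hpr, ← hc, hN]; omega
        have hc1 : c < p := Nat.lt_of_mul_lt_mul_left this
        rw [hc, Nat.mul_div_cancel_left _ hpos, Nat.cast_sub (by omega)]
        have hcq : ((i : ℚ) + 1) = ((p ^ (r - 1) : ℕ) : ℚ) * c := by exact_mod_cast hc
        have hpq : (p : ℚ) ^ r = ((p ^ (r - 1) : ℕ) : ℚ) * p := by exact_mod_cast hpr
        rw [hcq, hpq]
        have hA : ((p ^ (r - 1) : ℕ) : ℚ) ≠ 0 := by exact_mod_cast hpos.ne'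
        have hcq0 : (c : ℚ) ≠ 0 := by exact_mod_cast hc0
        have hcp : (p : ℚ) - c ≠ 0 := by
          have : (c : ℚ) < p := by exact_mod_cast hc1
          linarith
        generalize ((p ^ (r - 1) : ℕ) : ℚ) = A at hA ⊢
        have e1 : A * (p : ℚ) - A * c = A * ((p : ℚ) - c) := by ring
        rw [e1]
        push_cast
        have e2 : (c : ℚ) - 1 + 1 = c := by ring
        rw [e2]
        field_simp
    rw [e, ← Finset.mul_sum]
    have h1 : V p (1 - r) (1 / ((p ^ (r - 1) : ℕ) : ℚ)) := by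
      apply V_inv
      intro h
      have h2 := Nat.le_of_dvd hpos h
      rw [hpr] at h2
      have := hp.out.two_le
      nlinarith
    have h2 : V p 2 (w * (1 / ((p ^ (r - 1) : ℕ) : ℚ)) ^ 2) :=
      hw.mul' (h1.pow 2) (by push_cast; linarith)
    exact h2.mul' (sum_inv_mul h3) (by norm_num)
  · apply V_sum
    intro i hi
    rw [Finset.mem_filter, Finset.mem_range] at hi
    obtain ⟨hi1, hi2⟩ := hi
    have h1 := V_inv hi2
    have h2 : ¬ p ^ (r - 1) ∣ p ^ r - (i + 1) := by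
      intro h
      apply hi2
      have h4 : p ^ (r - 1) ∣ p ^ r := pow_dvd_pow _ (by omega)
      exact (Nat.dvd_sub_iff_right (by omega) h4).1 h
    have h5 := V_inv h2
    have hc : ((p ^ r - (i + 1) : ℕ) : ℚ) = (p : ℚ) ^ r - ((i : ℚ) + 1) := by
      rw [Nat.cast_sub (by omega)]; push_cast; ring
    have hr1 : ((r - 1 : ℕ) : ℤ) = r - 1 := by push_cast [Nat.cast_sub hr]; ring
    rw [hc, hr1] at h5
    rw [hr1] at h1
    push_cast at h1
    exact hw.mul' (h1.mul h5) (by linarith)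

lemma E_top {t : ℚ} (ht : t = -((p : ℚ) ^ r) / N) : V p 3 (E t N N - 1) := by
  unfold E
  rw [pow_mul, E_sq r N hN t]
  apply pow_one_unit (by norm_num)
  set w := t * ((p : ℚ) ^ r + t) with hw
  have htb := t_bound r N hr hN ht
  have hwb : V p (2 * r) w := htb.mul' ((V_pow r).add htb) (by linarith)
  have h1 := prod_two (p := p) (Finset.range N) (fun i : ℕ => w *
    ((1 / ((i : ℚ) + 1)) * (1 / ((p : ℚ) ^ r - ((i : ℚ) + 1))))) (by
      intro i hi
      have hi' := Finset.mem_range.1 hi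
      have h2 := inv_bound r N hN i hi'
      have h4 : V p (1 - r) (1 / ((p : ℚ) ^ r - ((i : ℚ) + 1))) := by
        have := inv_bound r N hN (N - (i + 1)) (by omega)
        rw [Nat.cast_sub (by omega)] at this
        have hq : (p : ℚ) ^ r = N + 1 := by exact_mod_cast hN
        rw [hq]
        convert this using 2
        push_cast; ring
      exact hwb.mul' (h2.mul h4) (by linarith))
  have h2 := h1.add (sum_w h3 r hr N hN hwb)
  convert h2 using 1
  ring

lemma W_bound {t : ℚ} (ht : t = -((p : ℚ) ^ r) / N) :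
    V p (3 - 2 * r) (∑ j ∈ Finset.range N, E t N (j + 1) * (1 / ((j : ℚ) + 1))) := by
  rcases Nat.lt_or_ge 1 r with h | h
  · apply V_sum
    intro j hj
    have hj' := Finset.mem_range.1 hj
    have h1 := E_int r hr N hN ht (j + 1) (by omega)
    have h2 := inv_bound r N hN j hj'
    apply h1.mul' h2
    have : (2 : ℤ) ≤ r := by exact_mod_cast h
    linarith
  · obtain rfl : r = 1 := by omega
    have hNp : N = p - 1 := by rw [pow_one] at hN; omega
    have e : ∑ j ∈ Finset.range N, E t N (j + 1) * (1 / ((j : ℚ) + 1)) =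
        ∑ j ∈ Finset.range N, (E t N (j + 1) - 1) * (1 / ((j : ℚ) + 1)) +
          ∑ j ∈ Finset.range (p - 1), (1 / ((j : ℚ) + 1)) := by
      rw [← hNp, ← Finset.sum_add_distrib]
      apply Finset.sum_congr rfl
      intro j _
      ring
    rw [e]
    have h1 : V p 1 (∑ j ∈ Finset.range N, (E t N (j + 1) - 1) * (1 / ((j : ℚ) + 1))) := by
      apply V_sum
      intro j hj
      have hj' := Finset.mem_range.1 hj
      have h1 := E_one 1 hr N hN ht (j + 1) (by omega)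
      have h2 := inv_bound 1 N hN j hj'
      exact h1.mul' h2 (by norm_num)
    exact (h1.add (sum_inv h3)).mono (by norm_num)

end setup

theorem main (h3 : 3 < p) (r : ℕ) (hr : 1 ≤ r) : V p (2 * r + 3) (S p r) := by
  obtain ⟨N, hN⟩ : ∃ N, p ^ r = N + 1 := ⟨p ^ r - 1, by
    have : 0 < p ^ r := pow_pos hp.out.pos _
    omega⟩
  have hN0 : N ≠ 0 := by
    rintro rfl
    have : 1 < p ^ r := Nat.one_lt_pow (by omega) hp.out.one_lt
    omega
  have hN' : (N : ℚ) ≠ 0 := by exact_mod_cast hN0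
  have hq : (p : ℚ) ^ r = N + 1 := by exact_mod_cast hN
  have hNsub : p ^ r - 1 = N := by omega
  obtain ⟨t, ht⟩ : ∃ t : ℚ, t = -((p : ℚ) ^ r) / N := ⟨_, rfl⟩
  have hS : S p r = ∑ k ∈ Finset.range (N + 1), (2 * (N : ℚ) * (k : ℚ) - 1) * E t N k := by
    unfold S
    rw [hNsub]
    apply Finset.sum_congr rfl
    intro k _
    rw [poch N k hN0, ht, hq]
    rfl
  have hx : ∀ j ∈ Finset.range N, V p 1 (t / ((j : ℚ) + 1)) := fun j hj =>
    x_bound r hr N hN ht j (Finset.mem_range.1 hj)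
  have hQ : ∀ j ∈ Finset.range N, ∃ Q : ℚ, V p 0 Q ∧ (1 + t / ((j : ℚ) + 1)) ^ (2 * N) *
      P ((2 * N : ℕ) : ℚ) (t / ((j : ℚ) + 1)) = 1 + (t / ((j : ℚ) + 1)) ^ 5 * Q :=
    fun j hj => P_spec h3 ((hx j hj).mono (by norm_num)) (2 * N)
  choose! Q hQ1 hQ2 using hQ
  have hkey := key ((p : ℚ) ^ r) t N hN0 hq ht Q hQ2 _ _ _ _ _ _ _ rfl rfl rfl rfl rfl rfl rfl
  rw [hS, hkey]
  have htb := t_bound r N hr hN ht
  have hNb := V_inv_unit (N_unit r hr N hN)
  have hqb := V_pow (p := p) r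
  have h6 : V p 0 (1 / (6 : ℚ)) := by
    have : ¬ p ∣ 6 := by
      intro h
      have h' : p ∣ 2 * 3 := by simpa using h
      rcases (hp.out.dvd_mul).1 h' with h | h
      · have := Nat.le_of_dvd (by norm_num) h
        omega
      · have := Nat.le_of_dvd (by norm_num) h
        omega
    have := V_inv_unit (p := p) this
    exact_mod_cast this
  have h2 : V p 0 (1 / (2 : ℚ)) := by
    have := V_inv_unit (p := p) (k := 2) (not_dvd_of_lt (by omega) (by omega))
    exact_mod_cast this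
  have hc3 : V p r (2 * (N : ℚ) * (2 * N + 1) * (2 * N + 2) / 6) := by
    have e : 2 * (N : ℚ) * (2 * N + 1) * (2 * N + 2) / 6 =
        (p : ℚ) ^ r * (((2 * (2 * N * (2 * N + 1)) : ℕ) : ℚ) * (1 / 6)) := by
      rw [hq]; push_cast; ring
    rw [e]
    exact hqb.mul' ((V_nat _).mul h6) (by linarith)
  have hc4 : V p r (2 * (N : ℚ) * (2 * N + 1) * (2 * N + 2) * (2 * N + 3) / 24) := by
    have e : 2 * (N : ℚ) * (2 * N + 1) * (2 * N + 2) * (2 * N + 3) / 24 =
        (p : ℚ) ^ r * (((2 * (2 * N * (2 * N + 1)) * (2 * N + 3) : ℕ) : ℚ) *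
          ((1 / 6) * ((1 / 2) * (1 / 2)))) := by
      rw [hq]; push_cast; ring
    rw [e]
    exact hqb.mul' ((V_nat _).mul (h6.mul (h2.mul h2))) (by linarith)
  have hW := W_bound h3 r hr N hN ht
  have hr' : (1 : ℤ) ≤ r := by exact_mod_cast hr
  have hEQ : ∀ j ∈ Finset.range N, V p 0 (E t N j * Q j) := by
    intro j hj
    exact (E_int r hr N hN ht j (Finset.mem_range.1 hj).le).mul' (hQ1 j hj) (by norm_num)
  have hE1 : ∀ j ∈ Finset.range N, V p 0 (E t N (j + 1)) := by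
    intro j hj
    exact E_int r hr N hN ht (j + 1) (Finset.mem_range.1 hj)
  apply V.sub
  · have hpre : V p (2 * r) (((p : ℚ) ^ r) ^ 2 * (1 / N)) :=
      (hqb.pow 2).mul' hNb (by push_cast; linarith)
    apply hpre.mul' _ (le_refl _)
    refine ((E_top h3 r hr N hN ht).add ?_).add ?_
    · have hε : V p (2 * r) ((2 * (p : ℚ) ^ r - 1) * ((p : ℚ) ^ r) ^ 2 / N) := by
        have e : (2 * (p : ℚ) ^ r - 1) * ((p : ℚ) ^ r) ^ 2 / N =
            (((2 * N + 1 : ℕ) : ℚ)) * (((p : ℚ) ^ r) ^ 2 * (1 / N)) := by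
          rw [hq]; push_cast; ring
        rw [e]
        exact (V_nat _).mul' hpre (by linarith)
      exact hε.mul' hW (by linarith)
    · apply V_sum
      intro j hj
      have hxj := hx j hj
      refine (V.add (V.neg ?_) ?_).sub ?_
      · exact ((hc3.mul htb).mul (hxj.pow 2)).mul' (hE1 j hj) (by push_cast; linarith)
      · exact ((hc4.mul htb).mul (hxj.pow 3)).mul' (hE1 j hj) (by push_cast; linarith)
      · exact (htb.mul (hxj.pow 4)).mul' (hEQ j hj) (by push_cast; linarith)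
  · have e : ∑ j ∈ Finset.range N, (-(2 * (N : ℚ) * (2 * N + 1) * (2 * N + 2) / 6 * t ^ 2 *
        (t / ((j : ℚ) + 1)) * E t N (j + 1)) +
        2 * (N : ℚ) * (2 * N + 1) * (2 * N + 2) * (2 * N + 3) / 24 * t ^ 2 *
          (t / ((j : ℚ) + 1)) ^ 2 * E t N (j + 1) -
        t ^ 2 * (t / ((j : ℚ) + 1)) ^ 3 * (E t N j * Q j)) =
        -(2 * (N : ℚ) * (2 * N + 1) * (2 * N + 2) / 6 * t ^ 3 *
          (∑ j ∈ Finset.range N, E t N (j + 1) * (1 / ((j : ℚ) + 1)))) +
        ∑ j ∈ Finset.range N, (2 * (N : ℚ) * (2 * N + 1) * (2 * N + 2) * (2 * N + 3) / 24 * t ^ 2 *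
          (t / ((j : ℚ) + 1)) ^ 2 * E t N (j + 1) -
        t ^ 2 * (t / ((j : ℚ) + 1)) ^ 3 * (E t N j * Q j)) := by
      rw [Finset.mul_sum, ← Finset.sum_neg_distrib, ← Finset.sum_add_distrib]
      apply Finset.sum_congr rfl
      intro j _
      ring
    rw [e]
    refine V.add (V.neg ?_) (V_sum _ _ ?_)
    · exact (hc3.mul (htb.pow 3)).mul' hW (by push_cast; linarith)
    · intro j hj
      have hxj := hx j hj
      refine V.sub ?_ ?_
      · exact ((hc4.mul (htb.pow 2)).mul (hxj.pow 2)).mul' (hE1 j hj) (by push_cast; linarith)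
      · exact ((htb.pow 2).mul (hxj.pow 3)).mul' (hEQ j hj) (by push_cast; linarith)

lemma den_of_V {x : ℚ} (h : V p 0 x) : Nat.Coprime x.den p := by
  rw [Nat.coprime_comm, hp.out.coprime_iff_not_dvd]
  intro hd
  have h1 : ¬ p ∣ x.num.natAbs := by
    intro h2
    have := Nat.dvd_gcd h2 hd
    rw [x.reduced.gcd_eq_one] at this
    exact absurd (Nat.le_of_dvd one_pos this) (by have := hp.out.two_le; omega)
  have h2 : padicNorm p (x.num : ℚ) = 1 := by
    rw [padicNorm.int_eq_one_iff]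
    intro h5
    exact h1 (Int.natCast_dvd.1 h5)
  have h4 : padicNorm p (x.den : ℚ) < 1 := (padicNorm.nat_lt_one_iff _).2 hd
  have h5 : padicNorm p x * padicNorm p (x.den : ℚ) = 1 := by
    rw [← padicNorm.mul, Rat.mul_den_eq_num, h2]
  have h6 : padicNorm p x ≤ 1 := by simpa [V] using h
  have h7 : 0 ≤ padicNorm p (x.den : ℚ) := padicNorm.nonneg _
  nlinarith

end

/-- **Result.** For every prime `p > 3` and every `r ≥ 1`, `S_r(p) / p^(2r+3)` has denominator
prime to `p`; this settles Q2 positively and contains Q1 (`r = 1`). -/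
theorem result (p : ℕ) (hp : p.Prime) (h3 : 3 < p) (r : ℕ) (hr : 1 ≤ r) :
    Nat.Coprime (S p r / (p : ℚ) ^ (2 * r + 3)).den p := by
  have : Fact p.Prime := ⟨hp⟩
  apply den_of_V
  have h1 := main h3 r hr
  unfold V at *
  have h2 := ppos (p := p)
  have h4 : padicNorm p ((p : ℚ) ^ (2 * r + 3)) = (p : ℚ) ^ (-((2 * r + 3 : ℕ) : ℤ)) := by
    have hh : ∀ m : ℕ, padicNorm p ((p : ℚ) ^ m) = (p : ℚ) ^ (-(m : ℤ)) := by
      intro m
      induction m with
      | zero => simp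
      | succ k ih =>
        rw [pow_succ, padicNorm.mul, ih, padicNorm.padicNorm_p_of_prime]
        push_cast
        rw [neg_add, zpow_add₀ h2.ne', zpow_neg_one]
    exact hh _
  rw [padicNorm.div, h4]
  rw [neg_zero, zpow_zero, div_le_one (zpow_pos h2 _)]
  push_cast
  exact h1

end Pool.Agent.Results.MP_7fc841_nt.Supercongruence
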